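import Mathlib
import Pool.Agent.H2.RS2

namespace Pool.Agent.Results.MP_2f4f34_gt.RankAlephOne

open Pool.Agent.H2.RS

/-- There is a Frechet-Urysohn group of sequence rank aleph one, and a countable one exists exactly
when the bounding number is aleph one. -/
theorem result :
    (∃ (G : Type) (_ : Group G) (_ : TopologicalSpace G), IsTopologicalGroup G ∧
      T2Space G ∧ FrechetUrysohnSpace G ∧ rs G = Cardinal.aleph 1) ∧
    ((∃ (G : Type) (_ : Group G) (_ : TopologicalSpace G), IsTopologicalGroup G ∧
      T2Space G ∧ FrechetUrysohnSpace G ∧ Countable G ∧ rs G = Cardinal.aleph 1) ↔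
      bnum = Cardinal.aleph 1) := by
  refine ⟨?_, countable_iff⟩
  obtain ⟨G, i1, i2, h1, h2, h3, h4⟩ := ex_aleph
  exact ⟨G, i1, i2, h1, h2, inferInstance, h4⟩

end Pool.Agent.Results.MP_2f4f34_gt.RankAlephOne
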